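import Pool.Agent.H282R6.HC.Defs

set_option autoImplicit false

open Filter

namespace Pool.Agent.H282R6.HC

private lemma att_q_nonneg {n : ℕ} (A : Matrix (Fin n) (Fin n) ℝ) (w : Fin n → ℤ) : 0 ≤ q A w := by
  unfold q
  positivity

private lemma att_coord {n : ℕ} (A : Matrix (Fin n) (Fin n) ℝ) (hA : A.det ≠ 0) (w : Fin n → ℤ)
    (i : Fin n) : |(w i : ℝ)| ≤ (∑ i, ∑ j, |A⁻¹ i j|) * √(q A w) := by
  have hu : IsUnit A.det := isUnit_iff_ne_zero.2 hA
  have h1 : Matrix.mulVec A⁻¹ (Matrix.mulVec A (fun j => (w j : ℝ))) = fun j => (w j : ℝ) := by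
    rw [Matrix.mulVec_mulVec, Matrix.nonsing_inv_mul A hu, Matrix.one_mulVec]
  have h2 : (w i : ℝ) = ∑ j, A⁻¹ i j * Matrix.mulVec A (fun j => (w j : ℝ)) j := by
    have := congrFun h1 i
    simp only [Matrix.mulVec, dotProduct] at this ⊢
    exact this.symm
  have h3 : ∀ j, |Matrix.mulVec A (fun j => (w j : ℝ)) j| ≤ √(q A w) := by
    intro j
    apply Real.le_sqrt_of_sq_le
    rw [sq_abs]
    unfold q
    exact Finset.single_le_sum (f := fun i => (Matrix.mulVec A (fun j => (w j : ℝ))) i ^ 2)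
      (fun i _ => sq_nonneg _) (Finset.mem_univ j)
  rw [h2]
  calc |∑ j, A⁻¹ i j * Matrix.mulVec A (fun j => (w j : ℝ)) j|
      ≤ ∑ j, |A⁻¹ i j * Matrix.mulVec A (fun j => (w j : ℝ)) j| := Finset.abs_sum_le_sum_abs _ _
    _ ≤ ∑ j, |A⁻¹ i j| * √(q A w) := by
        apply Finset.sum_le_sum
        intro j _
        rw [abs_mul]
        exact mul_le_mul_of_nonneg_left (h3 j) (abs_nonneg _)
    _ = (∑ j, |A⁻¹ i j|) * √(q A w) := by rw [Finset.sum_mul]
    _ ≤ (∑ i, ∑ j, |A⁻¹ i j|) * √(q A w) := by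
        apply mul_le_mul_of_nonneg_right _ (Real.sqrt_nonneg _)
        exact Finset.single_le_sum (f := fun i => ∑ j, |A⁻¹ i j|)
          (fun i _ => Finset.sum_nonneg fun j _ => abs_nonneg _) (Finset.mem_univ i)

private lemma att_finite {n : ℕ} (A : Matrix (Fin n) (Fin n) ℝ) (hA : A.det ≠ 0) (R : ℝ) :
    {w : Fin n → ℤ | q A w ≤ R}.Finite := by
  set N : ℕ := ⌈(∑ i, ∑ j, |A⁻¹ i j|) * √R⌉₊ with hN
  apply (Set.Finite.pi (t := fun _ : Fin n => Set.Icc (-(N : ℤ)) N)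
    (fun _ => Set.finite_Icc _ _)).subset
  intro w hw i _
  have h1 := att_coord A hA w i
  have h2 : (∑ i, ∑ j, |A⁻¹ i j|) * √(q A w) ≤ (∑ i, ∑ j, |A⁻¹ i j|) * √R := by
    apply mul_le_mul_of_nonneg_left (Real.sqrt_le_sqrt hw)
    exact Finset.sum_nonneg fun i _ => Finset.sum_nonneg fun j _ => abs_nonneg _
  have h3 : |(w i : ℝ)| ≤ (N : ℝ) := (h1.trans h2).trans (Nat.le_ceil _)
  have h4 : |w i| ≤ (N : ℤ) := by exact_mod_cast h3
  exact abs_le.1 h4

private lemma att_pos {n : ℕ} (A : Matrix (Fin n) (Fin n) ℝ) (hA : A.det ≠ 0) (w : Fin n → ℤ)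
    (hw : w ≠ 0) : 0 < q A w := by
  rcases (att_q_nonneg A w).lt_or_eq with h | h
  · exact h
  · exfalso
    apply hw
    funext i
    have h1 := att_coord A hA w i
    rw [← h, Real.sqrt_zero, mul_zero] at h1
    have h2 : (w i : ℝ) = 0 := abs_eq_zero.1 (le_antisymm h1 (abs_nonneg _))
    exact_mod_cast h2

private lemma att_smul {n : ℕ} (A : Matrix (Fin n) (Fin n) ℝ) (w : Fin n → ℤ) (d : ℤ) :
    q A (fun i => d * w i) = (d : ℝ) ^ 2 * q A w := by
  unfold q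
  have h1 : (fun j => ((d * w j : ℤ) : ℝ)) = (d : ℝ) • (fun j => (w j : ℝ)) := by
    funext j
    simp
  rw [h1, Matrix.mulVec_smul, Finset.mul_sum]
  apply Finset.sum_congr rfl
  intro i _
  simp only [Pi.smul_apply, smul_eq_mul]
  ring

/-- the minimum is attained, at a primitive vector -/
theorem mn_attained {n : ℕ} (hn : 1 ≤ n) (A : Matrix (Fin n) (Fin n) ℝ) (hA : A.det ≠ 0) :
    0 < mn A ∧ ∃ w : Fin n → ℤ, w ≠ 0 ∧ q A w = mn A ∧ ∀ d : ℤ, (∀ i, d ∣ w i) → IsUnit d := by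
  let w0 : Fin n → ℤ := fun _ => 1
  have hw0 : w0 ≠ 0 := by
    intro h
    have := congrFun h ⟨0, hn⟩
    simp [w0] at this
  obtain ⟨w, ⟨hw1, hw2⟩, hmin⟩ := Set.exists_min_image {w : Fin n → ℤ | w ≠ 0 ∧ q A w ≤ q A w0}
    (q A) ((att_finite A hA (q A w0)).subset fun w hw => hw.2) ⟨w0, hw0, le_rfl⟩
  have hle : ∀ b : Fin n → ℤ, b ≠ 0 → q A w ≤ q A b := by
    intro b hb
    rcases le_or_gt (q A b) (q A w0) with h | h
    · exact hmin b ⟨hb, h⟩
    · exact hw2.trans h.le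
  have hmn : mn A = q A w := by
    unfold mn
    haveI : Nonempty {w : Fin n → ℤ // w ≠ 0} := ⟨⟨w, hw1⟩⟩
    apply le_antisymm
    · exact ciInf_le (f := fun w : {w : Fin n → ℤ // w ≠ 0} => q A w.1)
        ⟨0, by rintro _ ⟨b, rfl⟩; exact att_q_nonneg A b.1⟩ ⟨w, hw1⟩
    · exact le_ciInf fun b => hle b.1 b.2
  refine ⟨by rw [hmn]; exact att_pos A hA w hw1, w, hw1, hmn.symm, ?_⟩
  intro d hd
  choose w' hw' using hd
  have e1 : w = fun i => d * w' i := funext hw'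
  have hd0 : d ≠ 0 := by
    rintro rfl
    apply hw1
    funext i
    rw [hw' i]; simp
  have hw'0 : w' ≠ 0 := by
    rintro rfl
    apply hw1
    funext i
    rw [hw' i]; simp
  have h1 : q A w = (d : ℝ) ^ 2 * q A w' := by
    conv_lhs => rw [e1]
    exact att_smul A w' d
  have h2 := hle w' hw'0
  have h3 := att_pos A hA w' hw'0
  have h4 : (d : ℝ) ^ 2 ≤ 1 := by
    by_contra hcon
    push Not at hcon
    nlinarith
  have h5 : d ^ 2 ≤ 1 := by exact_mod_cast h4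
  have h6 : |d| ≤ 1 := by
    rw [← sq_le_one_iff_abs_le_one]; exact h5
  rw [Int.isUnit_iff]
  rcases abs_le.1 h6 with ⟨h7, h8⟩
  omega

end Pool.Agent.H282R6.HC
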