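import Pool.Agent.H282R6.HC.Mink

open Filter

namespace Pool.Agent.H282R6.HC

private theorem Basic_term {n : ℕ} (hn : 1 ≤ n) (A : Matrix (Fin n) (Fin n) ℝ)
    (hA : A.det ≠ 0) : mn A / |A.det| ^ ((2 : ℝ) / (n : ℝ)) ≤ n := by
  have hpos : 0 < |A.det| ^ ((2 : ℝ) / (n : ℝ)) := Real.rpow_pos_of_pos (abs_pos.2 hA) _
  rw [div_le_iff₀ hpos]
  exact mn_le hn A hA

/-- T7 -/
theorem gam_basic (n : ℕ) (hn : 1 ≤ n) :
    1 ≤ gam n ∧ gam n ≤ n ∧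
      ∀ A : Matrix (Fin n) (Fin n) ℝ, A.det ≠ 0 → mn A ≤ gam n * |A.det| ^ ((2 : ℝ) / (n : ℝ)) := by
  have hg : gam n = ⨆ A : {A : Matrix (Fin n) (Fin n) ℝ // A.det ≠ 0},
      mn A.1 / |A.1.det| ^ ((2 : ℝ) / (n : ℝ)) := rfl
  have hbdd : BddAbove (Set.range fun A : {A : Matrix (Fin n) (Fin n) ℝ // A.det ≠ 0} =>
      mn A.1 / |A.1.det| ^ ((2 : ℝ) / (n : ℝ))) := by
    refine ⟨n, ?_⟩
    rintro _ ⟨A, rfl⟩
    exact Basic_term hn A.1 A.2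
  have hle : ∀ A : Matrix (Fin n) (Fin n) ℝ, A.det ≠ 0 →
      mn A / |A.det| ^ ((2 : ℝ) / (n : ℝ)) ≤ gam n := by
    intro A hA
    rw [hg]
    exact le_ciSup hbdd ⟨A, hA⟩
  refine ⟨?_, ?_, ?_⟩
  · have h1 := hle 1 (by simp)
    have h2 : 1 ≤ mn (1 : Matrix (Fin n) (Fin n) ℝ) := by
      unfold mn
      haveI : Nonempty {w : Fin n → ℤ // w ≠ 0} :=
        ⟨⟨fun _ => 1, fun h => one_ne_zero (congrFun h ⟨0, hn⟩)⟩⟩
      apply le_ciInf
      rintro ⟨w, hw⟩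
      obtain ⟨i, hi⟩ := Function.ne_iff.1 hw
      have h3 : (1 : ℝ) ≤ (w i : ℝ) ^ 2 := by
        have h4 : (1 : ℤ) ≤ (w i) ^ 2 := by
          have h5 : 0 < (w i) ^ 2 := by
            have : w i ≠ 0 := hi
            positivity
          omega
        exact_mod_cast h4
      have h6 : q (1 : Matrix (Fin n) (Fin n) ℝ) w = ∑ i, (w i : ℝ) ^ 2 := by
        simp [q]
      rw [h6]
      exact h3.trans (Finset.single_le_sum (f := fun i => (w i : ℝ) ^ 2)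
        (fun j _ => sq_nonneg _) (Finset.mem_univ i))
    have h7 : |(1 : Matrix (Fin n) (Fin n) ℝ).det| ^ ((2 : ℝ) / (n : ℝ)) = 1 := by simp
    rw [h7, div_one] at h1
    exact h2.trans h1
  · rw [hg]
    exact Real.iSup_le (fun A => Basic_term hn A.1 A.2) (Nat.cast_nonneg n)
  · intro A hA
    have hpos : 0 < |A.det| ^ ((2 : ℝ) / (n : ℝ)) := Real.rpow_pos_of_pos (abs_pos.2 hA) _
    have h := hle A hA
    rwa [div_le_iff₀ hpos] at h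

end Pool.Agent.H282R6.HC
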