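import Pool.Agent.H282R6.HC.Defs

/-! Task 11 of helper282 (helper995): cluster points of a slowly varying bounded sequence. -/

open Filter

namespace Pool.Agent.H282R6.HC

/-- T11 -/
theorem cluster (a : ℕ → ℝ) (C : ℝ) (hC : ∀ n, |a n| ≤ C)
    (h : Tendsto (fun n => a (n + 1) - a n) atTop (nhds 0)) (x : ℝ) :
    MapClusterPt x atTop a ↔ liminf a atTop ≤ x ∧ x ≤ limsup a atTop := by
  have hle : IsBoundedUnder (fun x1 x2 : ℝ => x1 ≤ x2) atTop a :=
    isBoundedUnder_of ⟨C, fun n => (abs_le.1 (hC n)).2⟩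
  have hge : IsBoundedUnder (fun x1 x2 : ℝ => x1 ≥ x2) atTop a :=
    isBoundedUnder_of ⟨-C, fun n => (abs_le.1 (hC n)).1⟩
  constructor
  · intro hx
    rw [mapClusterPt_iff_frequently] at hx
    constructor
    · refine le_of_forall_pos_le_add fun ε hε => ?_
      refine liminf_le_of_frequently_le ((hx _ (Metric.ball_mem_nhds x hε)).mono fun n hn => ?_) hge
      rw [Real.ball_eq_Ioo] at hn
      exact hn.2.le
    · refine le_of_forall_pos_le_add fun ε hε => ?_
      have h1 : x - ε ≤ limsup a atTop := by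
        refine le_limsup_of_frequently_le
          ((hx _ (Metric.ball_mem_nhds x hε)).mono fun n hn => ?_) hle
        rw [Real.ball_eq_Ioo] at hn
        exact hn.1.le
      linarith
  · rintro ⟨h1, h2⟩
    rw [mapClusterPt_iff_frequently]
    intro s hs
    obtain ⟨ε, hε, hball⟩ := Metric.mem_nhds_iff.1 hs
    rw [Real.ball_eq_Ioo] at hball
    rw [frequently_atTop]
    intro N
    have f1 : ∃ᶠ n in atTop, x - ε < a n :=
      frequently_lt_of_lt_limsup hge.isCoboundedUnder_le (by linarith)
    have f2 : ∃ᶠ n in atTop, a n < x + ε :=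
      frequently_lt_of_liminf_lt hle.isCoboundedUnder_ge (by linarith)
    rw [frequently_atTop] at f1 f2
    obtain ⟨N1, hN1⟩ := Metric.tendsto_atTop.1 h ε hε
    obtain ⟨n1, hn1, h3⟩ := f1 (max N N1)
    by_cases h4 : a n1 < x + ε
    · exact ⟨n1, (le_max_left _ _).trans hn1, hball ⟨h3, h4⟩⟩
    · have hex : ∃ n, n1 ≤ n ∧ a n < x + ε := f2 n1
      classical
      obtain ⟨h5, h6⟩ := Nat.find_spec hex
      have h7 : n1 < Nat.find hex := by
        rcases h5.lt_or_eq with h8 | h8
        · exact h8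
        · rw [← h8] at h6
          exact absurd h6 h4
      obtain ⟨k, hk⟩ : ∃ k, Nat.find hex = k + 1 := ⟨Nat.find hex - 1, by omega⟩
      have h8 : ¬ (n1 ≤ k ∧ a k < x + ε) := Nat.find_min hex (by omega)
      have h9 : x + ε ≤ a k := by
        by_contra h10
        exact h8 ⟨by omega, not_le.1 h10⟩
      have h10 := hN1 k (by have := (le_max_right N N1).trans hn1; omega)
      rw [Real.dist_eq, sub_zero, abs_lt] at h10
      rw [hk] at h6
      refine ⟨k + 1, ?_, hball ⟨by linarith [h10.1], h6⟩⟩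
      have := (le_max_left N N1).trans hn1
      omega

end Pool.Agent.H282R6.HC
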