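import Mathlib

/-!
# Gram matrices: every positive definite real matrix is `Bᵀ B` with `B` invertible
-/

namespace Pool.Agent.H282R6.HC

open scoped MatrixOrder in
theorem gram_root {n : ℕ} (G : Matrix (Fin n) (Fin n) ℝ) (hG : G.PosDef) :
    ∃ B : Matrix (Fin n) (Fin n) ℝ, B.det ≠ 0 ∧ B.transpose * B = G := by
  obtain ⟨B, hB⟩ := CStarAlgebra.nonneg_iff_eq_star_mul_self.mp hG.posSemidef.nonneg
  rw [Matrix.star_eq_conjTranspose, Matrix.conjTranspose_eq_transpose_of_trivial] at hB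
  refine ⟨B, ?_, hB.symm⟩
  intro h0
  have h1 := hG.det_pos
  rw [hB, Matrix.det_mul, h0, mul_zero] at h1
  exact lt_irrefl _ h1

end Pool.Agent.H282R6.HC

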