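import Pool.Agent.H282R6.HC.Defs

/-! task Minor: a principal minor of a Gram matrix -/

open Filter

namespace Pool.Agent.H282R6.HC

theorem minor {n : ℕ} (P : Matrix (Fin (n + 1)) (Fin (n + 1)) ℝ) (hP : P.det ≠ 0) :
    ((P.transpose * P).submatrix Fin.castSucc Fin.castSucc).det
      = P.det ^ 2 * ∑ i, (P⁻¹ (Fin.last n) i) ^ 2 := by
  have h1 := Matrix.adjugate_fin_succ_eq_det_submatrix (P.transpose * P) (Fin.last n) (Fin.last n)
  have h2 : (Fin.last n).succAbove = Fin.castSucc := by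
    funext i
    exact Fin.succAbove_last_apply i
  rw [h2] at h1
  have h3 : ((-1 : ℝ)) ^ (((Fin.last n : Fin (n + 1)) : ℕ) + ((Fin.last n : Fin (n + 1)) : ℕ)) = 1 :=
    Even.neg_one_pow ⟨_, rfl⟩
  rw [h3, one_mul] at h1
  rw [← h1, Matrix.adjugate_mul_distrib, ← Matrix.adjugate_transpose, Matrix.mul_apply,
    Finset.mul_sum]
  refine Finset.sum_congr rfl fun i _ => ?_
  have h4 : P⁻¹ (Fin.last n) i = (P.det)⁻¹ * P.adjugate (Fin.last n) i := by
    rw [Matrix.inv_def, Ring.inverse_eq_inv', Matrix.smul_apply, smul_eq_mul]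
  rw [h4, Matrix.transpose_apply]
  field_simp

end Pool.Agent.H282R6.HC
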