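import Mathlib

/-! Completion of a primitive integer vector to a unimodular matrix. -/

set_option autoImplicit false

namespace Pool.Agent.H282R6.HC

/-- Completion of a primitive integer vector to a unimodular matrix. -/
theorem unimod {n : ℕ} (a : Fin (n + 1) → ℤ) (ha : ∀ d : ℤ, (∀ i, d ∣ a i) → IsUnit d) :
    ∃ U : Matrix (Fin (n + 1)) (Fin (n + 1)) ℤ, IsUnit U.det ∧ ∀ i, U i (Fin.last n) = a i := by
  classical
  -- Bezout
  obtain ⟨c, hc⟩ : ∃ c : Fin (n + 1) → ℤ, ∑ i, c i * a i = 1 := by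
    obtain ⟨d, hd⟩ := IsPrincipalIdealRing.principal (Ideal.span (Set.range a))
    have h1 : IsUnit d := by
      apply ha
      intro i
      have h2 : a i ∈ Ideal.span (Set.range a) := Ideal.subset_span ⟨i, rfl⟩
      rw [hd] at h2
      exact Ideal.mem_span_singleton.1 h2
    have h3 : (1 : ℤ) ∈ Ideal.span (Set.range a) := by
      rw [hd]
      exact Ideal.mem_span_singleton.2 h1.dvd
    exact Ideal.mem_span_range_iff_exists_fun.1 h3
  let φ : (Fin (n + 1) → ℤ) →ₗ[ℤ] ℤ := ∑ i, c i • LinearMap.proj i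
  have hφ : ∀ v, φ v = ∑ i, c i * v i := by
    intro v
    simp [φ, LinearMap.sum_apply]
  have hφa : φ a = 1 := by rw [hφ, hc]
  obtain ⟨k, ⟨β⟩⟩ : ∃ k : ℕ, Nonempty (Module.Basis (Fin k) ℤ (LinearMap.ker φ)) :=
    ⟨_, ⟨Module.finBasis ℤ (LinearMap.ker φ)⟩⟩
  let B : Module.Basis (Fin (k + 1)) ℤ (Fin (n + 1) → ℤ) := Module.Basis.mkFinCons a β
    (by
      intro d x hx h0
      have h1 := congrArg φ h0
      rw [map_add, map_smul, hφa, LinearMap.mem_ker.1 hx, map_zero] at h1
      simpa using h1)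
    (by
      intro z
      refine ⟨- φ z, ?_⟩
      rw [LinearMap.mem_ker, map_add, map_smul, hφa]
      simp)
  have hB0 : B 0 = a := by
    simp [B]
  have hk : k = n := by
    have h1 := Module.finrank_eq_card_basis B
    rw [Module.finrank_fin_fun, Fintype.card_fin] at h1
    omega
  subst hk
  let B' : Module.Basis (Fin (k + 1)) ℤ (Fin (k + 1) → ℤ) := B.reindex Fin.revPerm
  refine ⟨(Pi.basisFun ℤ (Fin (k + 1))).toMatrix B', ?_, ?_⟩
  · have h1 := (Pi.basisFun ℤ (Fin (k + 1))).isUnit_det B'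
    rwa [Module.Basis.det_apply] at h1
  · intro i
    rw [Module.Basis.toMatrix_apply]
    simp [B', hB0]

end Pool.Agent.H282R6.HC
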