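import Pool.Agent.H282R6.HC.Att
import Pool.Agent.H282R6.HC.Uni
import Pool.Agent.H282R6.HC.Gram
import Pool.Agent.H282R6.HC.Minor

/-! T6 (helper596): the induction step, from dimension `n+1` to dimension `n`. -/

open Filter

namespace Pool.Agent.H282R6.HC

open Matrix

private theorem core_sq {m k : ℕ} (C : Matrix (Fin m) (Fin k) ℝ) (x : Fin k → ℝ) :
    ∑ i, (C *ᵥ x) i ^ 2 = x ⬝ᵥ ((C.transpose * C) *ᵥ x) := by
  rw [← Matrix.mulVec_mulVec, Matrix.dotProduct_mulVec, Matrix.vecMul_transpose, dotProduct]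
  exact Finset.sum_congr rfl fun i _ => pow_two _

private theorem core_cast {n : ℕ} (V : Matrix (Fin n) (Fin n) ℤ) (w : Fin n → ℤ) :
    (V.map (Int.cast : ℤ → ℝ)) *ᵥ (fun j => (w j : ℝ)) = fun i => ((V *ᵥ w) i : ℝ) := by
  ext i
  simp [Matrix.mulVec, dotProduct]

theorem core {n : ℕ} (hn : 1 ≤ n) (A : Matrix (Fin (n + 1)) (Fin (n + 1)) ℝ) (hA : A.det ≠ 0) :
    ∃ B : Matrix (Fin n) (Fin n) ℝ, B.det ≠ 0 ∧ mn A ≤ mn B ∧
      B.det ^ 2 = A.det ^ 2 * mn (A⁻¹).transpose := by
  have hAu : IsUnit A.det := isUnit_iff_ne_zero.mpr hA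
  have hD : (A⁻¹).transpose.det ≠ 0 := by
    rw [Matrix.det_transpose, Matrix.det_nonsing_inv, Ring.inverse_eq_inv']
    exact inv_ne_zero hA
  obtain ⟨hpos, a, ha0, haq, hprim⟩ := mn_attained (Nat.le_add_left 1 n) _ hD
  obtain ⟨U, hU, hUa⟩ := unimod a hprim
  -- the real matrix of `U` and `V = (U⁻¹)ᵀ`
  set V : Matrix (Fin (n + 1)) (Fin (n + 1)) ℤ := (U⁻¹).transpose with hV
  have hVU : V * U.transpose = 1 := by
    rw [hV, ← Matrix.transpose_mul, Matrix.mul_nonsing_inv U hU, Matrix.transpose_one]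
  have hUV : U.transpose * V = 1 := by
    rw [hV, ← Matrix.transpose_mul, Matrix.nonsing_inv_mul U hU, Matrix.transpose_one]
  set Vr : Matrix (Fin (n + 1)) (Fin (n + 1)) ℝ := V.map (Int.cast : ℤ → ℝ) with hVr
  set Ur : Matrix (Fin (n + 1)) (Fin (n + 1)) ℝ := U.map (Int.cast : ℤ → ℝ) with hUr
  have hVUr : Vr * Ur.transpose = 1 := by
    have h := congrArg (fun M => M.map (Int.castRingHom ℝ)) hVU
    simp only [Matrix.map_mul, Matrix.map_one _ (map_zero _) (map_one _)] at h
    exact h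
  have hUVr : Ur.transpose * Vr = 1 := by
    have h := congrArg (fun M => M.map (Int.castRingHom ℝ)) hUV
    simp only [Matrix.map_mul, Matrix.map_one _ (map_zero _) (map_one _)] at h
    exact h
  have hVd : Vr.det ^ 2 = 1 := by
    have h1 : IsUnit V.det := by
      have := congrArg Matrix.det hVU
      rw [Matrix.det_mul, Matrix.det_one] at this
      exact IsUnit.of_mul_eq_one _ this
    have h2 : Vr.det = (V.det : ℝ) := by
      rw [hVr]
      exact (RingHom.map_det (Int.castRingHom ℝ) V).symm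
    rw [h2]
    rcases Int.isUnit_iff.mp h1 with h | h <;> rw [h] <;> norm_num
  set P : Matrix (Fin (n + 1)) (Fin (n + 1)) ℝ := A * Vr with hP
  have hPd2 : P.det ^ 2 = A.det ^ 2 := by
    rw [hP, Matrix.det_mul, mul_pow, hVd, mul_one]
  have hPd : P.det ≠ 0 := by
    intro h
    rw [h] at hPd2
    exact hA (pow_eq_zero_iff (two_ne_zero)|>.mp (by rw [← hPd2]; norm_num))
  have hPinv : P⁻¹ = Ur.transpose * A⁻¹ := by
    apply Matrix.inv_eq_left_inv
    rw [hP, Matrix.mul_assoc, ← Matrix.mul_assoc A⁻¹ A Vr, Matrix.nonsing_inv_mul A hAu,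
      Matrix.one_mul, hUVr]
  have hlast : ∑ i, (P⁻¹ (Fin.last n) i) ^ 2 = mn (A⁻¹).transpose := by
    rw [← haq, q]
    refine Finset.sum_congr rfl fun i _ => ?_
    congr 1
    rw [hPinv, Matrix.mul_apply, Matrix.mulVec, dotProduct]
    refine Finset.sum_congr rfl fun k _ => ?_
    rw [Matrix.transpose_apply, Matrix.transpose_apply, hUr, Matrix.map_apply, hUa k, mul_comm]
  -- the Gram matrix
  have hPD : (P.transpose * P).PosDef := by
    have h := Matrix.PosDef.conjTranspose_mul_self P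
      (Matrix.mulVec_injective_iff_isUnit.mpr ((Matrix.isUnit_iff_isUnit_det P).mpr
        (isUnit_iff_ne_zero.mpr hPd)))
    rwa [Matrix.conjTranspose_eq_transpose_of_trivial] at h
  have hPD' : ((P.transpose * P).submatrix Fin.castSucc Fin.castSucc).PosDef :=
    hPD.submatrix (Fin.castSucc_injective n)
  obtain ⟨B, hB, hBG⟩ := gram_root _ hPD'
  refine ⟨B, hB, ?_, ?_⟩
  · haveI : Nonempty (Fin n) := ⟨⟨0, hn⟩⟩
    haveI : Nonempty {w : Fin n → ℤ // w ≠ 0} :=
      ⟨⟨fun _ => 1, fun h => one_ne_zero (congrFun h ⟨0, hn⟩)⟩⟩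
    refine le_ciInf fun w => ?_
    obtain ⟨w, hw⟩ := w
    set w' : Fin (n + 1) → ℤ := Fin.snoc (α := fun _ => ℤ) w 0 with hw'
    have hw'0 : w' ≠ 0 := by
      intro h
      apply hw
      ext j
      have := congrFun h (Fin.castSucc j)
      rw [hw', Fin.snoc_castSucc] at this
      simpa using this
    have hv0 : V *ᵥ w' ≠ 0 := by
      intro h
      apply hw'0
      have h2 : U.transpose *ᵥ (V *ᵥ w') = 0 := by rw [h, Matrix.mulVec_zero]
      rwa [Matrix.mulVec_mulVec, hUV, Matrix.one_mulVec] at h2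
    have hq : q B w = q A (V *ᵥ w') := by
      have h1 : q B w = (fun j => (w j : ℝ)) ⬝ᵥ ((B.transpose * B) *ᵥ (fun j => (w j : ℝ))) :=
        core_sq B _
      have h2 : (P.transpose * P).submatrix Fin.castSucc Fin.castSucc =
          (P.submatrix id Fin.castSucc).transpose * (P.submatrix id Fin.castSucc) := by
        ext i j
        simp [Matrix.mul_apply]
      rw [h1, hBG, h2, ← core_sq, q]
      refine Finset.sum_congr rfl fun i _ => ?_
      congr 1
      have h3 : (fun j => (((V *ᵥ w') j : ℤ) : ℝ)) = Vr *ᵥ (fun j => (w' j : ℝ)) :=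
        (core_cast V w').symm
      rw [h3, Matrix.mulVec_mulVec, ← hP, Matrix.mulVec, Matrix.mulVec, dotProduct, dotProduct,
        Fin.sum_univ_castSucc]
      simp [hw', Fin.snoc_castSucc, Fin.snoc_last]
    rw [hq]
    refine ciInf_le (f := fun w : {w : Fin (n + 1) → ℤ // w ≠ 0} => q A w.1) ?_ ⟨_, hv0⟩
    exact ⟨0, by rintro _ ⟨w, rfl⟩; exact Finset.sum_nonneg fun i _ => sq_nonneg _⟩
  · have h := minor P hPd
    rw [← hBG, Matrix.det_mul, Matrix.det_transpose, hlast, hPd2] at h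
    rw [pow_two]
    exact h

end Pool.Agent.H282R6.HC
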