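import Mathlib

/-! Hermite's constant, in the form of the frozen statement S09747. -/

open Filter

namespace Pool.Agent.H282R6.HC

/-- squared length of the lattice vector `A w` -/
def q {n : ℕ} (A : Matrix (Fin n) (Fin n) ℝ) (w : Fin n → ℤ) : ℝ :=
  ∑ i, (Matrix.mulVec A (fun j => (w j : ℝ))) i ^ 2

/-- least squared length of a nonzero vector of the lattice `A ℤⁿ` -/
noncomputable def mn {n : ℕ} (A : Matrix (Fin n) (Fin n) ℝ) : ℝ :=
  ⨅ w : {w : Fin n → ℤ // w ≠ 0}, q A w.1

/-- Hermite's constant `γ_n`: the supremum over invertible real `n × n` matrices `A` of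
the least squared length of a nonzero vector of `A ℤⁿ` divided by `|det A|^(2/n)`. -/
noncomputable def gam (n : ℕ) : ℝ :=
  ⨆ A : {A : Matrix (Fin n) (Fin n) ℝ // A.det ≠ 0},
    (⨅ w : {w : Fin n → ℤ // w ≠ 0},
      ∑ i, (Matrix.mulVec A.1 (fun j => (w.1 j : ℝ))) i ^ 2)
      / |A.1.det| ^ ((2 : ℝ) / (n : ℝ))

/-- the sequence `γ_n / n` -/
noncomputable def ga (n : ℕ) : ℝ := gam n / n

end Pool.Agent.H282R6.HC
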