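import Pool.Agent.H282R6.HC.Basic
import Pool.Agent.H282R6.HC.Att

/-! Direct sum of a lattice with a line. -/

namespace Pool.Agent.H282R6.HC

/-- the block sum of `A` and `t` -/
noncomputable def addLine {n : ℕ} (A : Matrix (Fin n) (Fin n) ℝ) (t : ℝ) :
    Matrix (Fin (n + 1)) (Fin (n + 1)) ℝ :=
  Matrix.reindex finSumFinEquiv finSumFinEquiv
    (Matrix.fromBlocks A 0 0 (Matrix.diagonal (fun _ : Fin 1 => t)))

theorem addLine_det {n : ℕ} (A : Matrix (Fin n) (Fin n) ℝ) (t : ℝ) :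
    (addLine A t).det = A.det * t := by
  unfold addLine
  rw [Matrix.det_reindex_self, Matrix.det_fromBlocks_zero₁₂, Matrix.det_diagonal]
  simp

theorem addLine_cc {n : ℕ} (A : Matrix (Fin n) (Fin n) ℝ) (t : ℝ) (i j : Fin n) :
    addLine A t i.castSucc j.castSucc = A i j := by
  have h : ∀ i : Fin n, finSumFinEquiv.symm (i.castSucc : Fin (n + 1)) = Sum.inl i := fun i =>
    finSumFinEquiv_symm_apply_castAdd (n := 1) i
  simp [addLine, h]

theorem addLine_cl {n : ℕ} (A : Matrix (Fin n) (Fin n) ℝ) (t : ℝ) (i : Fin n) :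
    addLine A t i.castSucc (Fin.last n) = 0 := by
  have h : ∀ i : Fin n, finSumFinEquiv.symm (i.castSucc : Fin (n + 1)) = Sum.inl i := fun i =>
    finSumFinEquiv_symm_apply_castAdd (n := 1) i
  have h' : finSumFinEquiv.symm (Fin.last n : Fin (n + 1)) = Sum.inr 0 :=
    finSumFinEquiv_symm_apply_natAdd (m := n) (0 : Fin 1)
  simp [addLine, h, h']

theorem addLine_lc {n : ℕ} (A : Matrix (Fin n) (Fin n) ℝ) (t : ℝ) (i : Fin n) :
    addLine A t (Fin.last n) i.castSucc = 0 := by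
  have h : ∀ i : Fin n, finSumFinEquiv.symm (i.castSucc : Fin (n + 1)) = Sum.inl i := fun i =>
    finSumFinEquiv_symm_apply_castAdd (n := 1) i
  have h' : finSumFinEquiv.symm (Fin.last n : Fin (n + 1)) = Sum.inr 0 :=
    finSumFinEquiv_symm_apply_natAdd (m := n) (0 : Fin 1)
  simp [addLine, h, h']

theorem addLine_ll {n : ℕ} (A : Matrix (Fin n) (Fin n) ℝ) (t : ℝ) :
    addLine A t (Fin.last n) (Fin.last n) = t := by
  have h' : finSumFinEquiv.symm (Fin.last n : Fin (n + 1)) = Sum.inr 0 :=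
    finSumFinEquiv_symm_apply_natAdd (m := n) (0 : Fin 1)
  simp [addLine, h']

theorem addLine_q {n : ℕ} (A : Matrix (Fin n) (Fin n) ℝ) (t : ℝ) (w : Fin (n + 1) → ℤ) :
    q (addLine A t) w = q A (fun i => w i.castSucc) + (t * w (Fin.last n)) ^ 2 := by
  unfold q
  rw [Fin.sum_univ_castSucc]
  congr 1
  · apply Finset.sum_congr rfl
    intro i _
    congr 1
    simp only [Matrix.mulVec, dotProduct]
    rw [Fin.sum_univ_castSucc, addLine_cl, zero_mul, add_zero]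
    simp only [addLine_cc]
  · congr 1
    simp only [Matrix.mulVec, dotProduct]
    rw [Fin.sum_univ_castSucc, addLine_ll]
    simp only [addLine_lc, zero_mul, Finset.sum_const_zero, zero_add]

theorem mn_le_q {n : ℕ} (A : Matrix (Fin n) (Fin n) ℝ) (w : Fin n → ℤ) (hw : w ≠ 0) :
    mn A ≤ q A w :=
  ciInf_le ⟨0, by rintro _ ⟨v, rfl⟩; exact Finset.sum_nonneg fun i _ => sq_nonneg _⟩
    (⟨w, hw⟩ : {w : Fin n → ℤ // w ≠ 0})

theorem addLine_mn {n : ℕ} (A : Matrix (Fin n) (Fin n) ℝ) (t : ℝ) (ht : t ^ 2 = mn A) :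
    mn A ≤ mn (addLine A t) := by
  have : Nonempty {w : Fin (n + 1) → ℤ // w ≠ 0} :=
    ⟨⟨fun _ => 1, fun h => one_ne_zero (congrFun h (Fin.last n))⟩⟩
  apply le_ciInf
  rintro ⟨w, hw⟩
  change mn A ≤ q (addLine A t) w
  rw [addLine_q]
  by_cases hl : w (Fin.last n) = 0
  · have hw' : (fun i => w i.castSucc : Fin n → ℤ) ≠ 0 := by
      intro h0
      apply hw
      funext i
      refine Fin.lastCases hl (fun j => ?_) i
      exact congrFun h0 j
    have h1 := mn_le_q A _ hw'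
    nlinarith [sq_nonneg (t * (w (Fin.last n) : ℝ))]
  · have h3 : (1 : ℝ) ≤ (w (Fin.last n) : ℝ) ^ 2 := by
      have h4 : (1 : ℤ) ≤ (w (Fin.last n)) ^ 2 := by
        have h5 : 0 < (w (Fin.last n)) ^ 2 := by positivity
        omega
      exact_mod_cast h4
    have h4 : 0 ≤ q A (fun i => w i.castSucc) := Finset.sum_nonneg fun i _ => sq_nonneg _
    have h5 : (t * (w (Fin.last n) : ℝ)) ^ 2 = t ^ 2 * (w (Fin.last n) : ℝ) ^ 2 := by ring
    rw [h5]
    nlinarith [sq_nonneg t]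

/-- T9 direct sum with a line -/
theorem sum_line (n : ℕ) (hn : 1 ≤ n) :
    gam n ^ ((n : ℝ) / ((n : ℝ) + 1)) ≤ gam (n + 1) := by
  have hn0 : (0 : ℝ) < n := by exact_mod_cast hn
  obtain ⟨hg1, -, -⟩ := gam_basic n hn
  obtain ⟨hG1, -, hGA⟩ := gam_basic (n + 1) (Nat.le_add_left 1 n)
  have hg0 : 0 ≤ gam n := zero_le_one.trans hg1
  have hG0 : 0 ≤ gam (n + 1) := zero_le_one.trans hG1
  have key : ∀ A : Matrix (Fin n) (Fin n) ℝ, A.det ≠ 0 →
      mn A / |A.det| ^ ((2 : ℝ) / (n : ℝ)) ≤ gam (n + 1) ^ (((n : ℝ) + 1) / (n : ℝ)) := by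
    intro A hA
    have hApos : 0 < |A.det| := abs_pos.2 hA
    have hm : 0 < mn A := (mn_attained hn A hA).1
    have ht : (Real.sqrt (mn A)) ^ 2 = mn A := Real.sq_sqrt hm.le
    have htpos : 0 < Real.sqrt (mn A) := Real.sqrt_pos.2 hm
    have hdet : (addLine A (Real.sqrt (mn A))).det ≠ 0 := by
      rw [addLine_det]; exact mul_ne_zero hA htpos.ne'
    have h1 := (addLine_mn A _ ht).trans (hGA _ hdet)
    rw [addLine_det, abs_mul, abs_of_pos htpos] at h1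
    have h2 : (mn A) ^ (((n : ℝ) + 1) / (n : ℝ)) ≤
        (gam (n + 1) * (|A.det| * Real.sqrt (mn A)) ^ ((2 : ℝ) / ((n + 1 : ℕ) : ℝ)))
          ^ (((n : ℝ) + 1) / (n : ℝ)) :=
      Real.rpow_le_rpow hm.le h1 (by positivity)
    have hprod : 0 < |A.det| * Real.sqrt (mn A) := mul_pos hApos htpos
    rw [Real.mul_rpow hG0 (Real.rpow_nonneg hprod.le _), ← Real.rpow_mul hprod.le] at h2
    have e1 : (2 : ℝ) / ((n + 1 : ℕ) : ℝ) * (((n : ℝ) + 1) / (n : ℝ)) = (2 : ℝ) / (n : ℝ) := by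
      push_cast
      have h3 : (n : ℝ) + 1 ≠ 0 := by positivity
      field_simp
    rw [e1, Real.mul_rpow hApos.le htpos.le] at h2
    have e2 : Real.sqrt (mn A) ^ ((2 : ℝ) / (n : ℝ)) = mn A ^ ((1 : ℝ) / (n : ℝ)) := by
      rw [Real.sqrt_eq_rpow, ← Real.rpow_mul hm.le]
      congr 1
      ring
    have e3 : mn A ^ (((n : ℝ) + 1) / (n : ℝ)) = mn A * mn A ^ ((1 : ℝ) / (n : ℝ)) := by
      rw [add_div, div_self hn0.ne', Real.rpow_add hm, Real.rpow_one]
    rw [e2, e3] at h2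
    have hpp : 0 < mn A ^ ((1 : ℝ) / (n : ℝ)) := Real.rpow_pos_of_pos hm _
    have hdp : 0 < |A.det| ^ ((2 : ℝ) / (n : ℝ)) := Real.rpow_pos_of_pos hApos _
    rw [div_le_iff₀ hdp]
    have h4 : mn A * mn A ^ ((1 : ℝ) / (n : ℝ)) ≤
        (gam (n + 1) ^ (((n : ℝ) + 1) / (n : ℝ)) * |A.det| ^ ((2 : ℝ) / (n : ℝ)))
          * mn A ^ ((1 : ℝ) / (n : ℝ)) := by
      calc _ ≤ _ := h2
        _ = _ := by ring
    exact le_of_mul_le_mul_right h4 hpp
  have hg : gam n = ⨆ A : {A : Matrix (Fin n) (Fin n) ℝ // A.det ≠ 0},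
      mn A.1 / |A.1.det| ^ ((2 : ℝ) / (n : ℝ)) := rfl
  have h5 : gam n ≤ gam (n + 1) ^ (((n : ℝ) + 1) / (n : ℝ)) := by
    conv_lhs => rw [hg]
    exact Real.iSup_le (fun A => key A.1 A.2) (Real.rpow_nonneg hG0 _)
  calc gam n ^ ((n : ℝ) / ((n : ℝ) + 1))
      ≤ (gam (n + 1) ^ (((n : ℝ) + 1) / (n : ℝ))) ^ ((n : ℝ) / ((n : ℝ) + 1)) :=
        Real.rpow_le_rpow hg0 h5 (by positivity)
    _ = gam (n + 1) := by
        rw [← Real.rpow_mul hG0]
        have h3 : (n : ℝ) + 1 ≠ 0 := by positivity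
        have e4 : ((n : ℝ) + 1) / (n : ℝ) * ((n : ℝ) / ((n : ℝ) + 1)) = 1 := by
          field_simp
        rw [e4, Real.rpow_one]

end Pool.Agent.H282R6.HC
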