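-- Pool/Agent/H282R6/HC/Mink.lean (imports only Defs), theorem mn_le
import Pool.Agent.H282R6.HC.Defs

open Filter MeasureTheory

namespace Pool.Agent.H282R6.HC

/-- T1 Minkowski -/
theorem mn_le {n : ℕ} (hn : 1 ≤ n) (A : Matrix (Fin n) (Fin n) ℝ) (hA : A.det ≠ 0) :
    mn A ≤ n * |A.det| ^ ((2 : ℝ) / (n : ℝ)) := by
  have hne : Nonempty (Fin n) := ⟨⟨0, hn⟩⟩
  have hnt : Nontrivial (Fin n → ℝ) := inferInstance
  have hn0 : (n : ℝ) ≠ 0 := by
    have : 0 < n := hn
    positivity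
  have hd : 0 < |A.det| := abs_pos.2 hA
  obtain ⟨t, ht0⟩ : ∃ t : ℝ, t = |A.det| ^ ((1 : ℝ) / (n : ℝ)) := ⟨_, rfl⟩
  have htp : 0 < t := by rw [ht0]; exact Real.rpow_pos_of_pos hd _
  have htn : t ^ n = |A.det| := by
    rw [ht0, ← Real.rpow_natCast, ← Real.rpow_mul hd.le, one_div, inv_mul_cancel₀ hn0,
      Real.rpow_one]
  have ht2 : t ^ 2 = |A.det| ^ ((2 : ℝ) / (n : ℝ)) := by
    rw [ht0, ← Real.rpow_natCast, ← Real.rpow_mul hd.le]
    congr 1
    push_cast
    ring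
  have hAA : A * A⁻¹ = 1 := Matrix.mul_nonsing_inv A (isUnit_iff_ne_zero.2 hA)
  let f : (Fin n → ℝ) →ₗ[ℝ] (Fin n → ℝ) := Matrix.toLin' A⁻¹
  have hfdet : LinearMap.det f = A.det⁻¹ := by
    rw [LinearMap.det_toLin', Matrix.det_nonsing_inv, Ring.inverse_eq_inv']
  have hfc : Continuous f := LinearMap.continuous_of_finiteDimensional f
  obtain ⟨s, hs⟩ : ∃ s, s = f '' (Metric.closedBall (0 : Fin n → ℝ) t) := ⟨_, rfl⟩
  have hscpt : IsCompact s := by
    rw [hs]
    exact (isCompact_closedBall _ _).image hfc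
  have hsconv : Convex ℝ s := by
    rw [hs]
    exact (convex_closedBall _ _).linear_image f
  have hssym : ∀ x ∈ s, -x ∈ s := by
    rw [hs]
    rintro _ ⟨y, hy, rfl⟩
    refine ⟨-y, ?_, map_neg f y⟩
    rw [mem_closedBall_zero_iff] at hy ⊢
    rwa [norm_neg]
  have hvol : volume s = 2 ^ n := by
    rw [hs, Measure.addHaar_image_linearMap, hfdet, Real.volume_pi_closedBall _ htp.le,
      ← ENNReal.ofReal_mul (abs_nonneg _), Fintype.card_fin, mul_pow, htn, abs_inv]
    rw [show |A.det|⁻¹ * (2 ^ n * |A.det|) = 2 ^ n by field_simp]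
    rw [ENNReal.ofReal_pow (by norm_num)]
    norm_num
  have hF := ZSpan.isAddFundamentalDomain' (Pi.basisFun ℝ (Fin n)) volume
  have hFv : volume (ZSpan.fundamentalDomain (Pi.basisFun ℝ (Fin n))) = 1 := by
    rw [ZSpan.fundamentalDomain_pi_basisFun, volume_pi, Measure.pi_pi]
    simp
  have hdisc : DiscreteTopology
      (Submodule.span ℤ (Set.range (Pi.basisFun ℝ (Fin n)))).toAddSubgroup :=
    inferInstanceAs (DiscreteTopology (Submodule.span ℤ (Set.range (Pi.basisFun ℝ (Fin n)))))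
  have hcount : Countable
      (Submodule.span ℤ (Set.range (Pi.basisFun ℝ (Fin n)))).toAddSubgroup :=
    inferInstanceAs (Countable (Submodule.span ℤ (Set.range (Pi.basisFun ℝ (Fin n)))))
  obtain ⟨x, hx0, hxs⟩ := exists_ne_zero_mem_lattice_of_measure_mul_two_pow_le_measure hF hssym
    hsconv hscpt (by rw [hFv, hvol, Module.finrank_fin_fun, one_mul])
  have hxm : (x : Fin n → ℝ) ∈ Submodule.span ℤ (Set.range (Pi.basisFun ℝ (Fin n))) := x.2
  rw [Module.Basis.mem_span_iff_repr_mem] at hxm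
  choose w hw using hxm
  have hxw : (x : Fin n → ℝ) = fun j => (w j : ℝ) := by
    ext j
    have := hw j
    simpa using this.symm
  have hw0 : w ≠ 0 := by
    intro h
    apply hx0
    apply Subtype.ext
    rw [hxw, h]
    ext j
    simp
  rw [hs] at hxs
  obtain ⟨y, hy, hyx⟩ := hxs
  rw [mem_closedBall_zero_iff] at hy
  have hAx : Matrix.mulVec A (fun j => (w j : ℝ)) = y := by
    rw [← hxw, ← hyx]
    change Matrix.mulVec A (Matrix.toLin' A⁻¹ y) = y
    rw [Matrix.toLin'_apply, Matrix.mulVec_mulVec, hAA, Matrix.one_mulVec]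
  have hq : q A w ≤ n * t ^ 2 := by
    unfold q
    rw [hAx]
    calc ∑ i, y i ^ 2 ≤ ∑ _i : Fin n, t ^ 2 := by
          refine Finset.sum_le_sum (fun i _ => ?_)
          have h1 : |y i| ≤ t := le_trans (by simpa using norm_le_pi_norm y i) hy
          rw [← sq_abs]
          exact pow_le_pow_left₀ (abs_nonneg _) h1 2
      _ = n * t ^ 2 := by simp
  rw [← ht2]
  refine le_trans ?_ hq
  refine ciInf_le (f := fun w : {w : Fin n → ℤ // w ≠ 0} => q A w.1) ⟨0, ?_⟩ ⟨w, hw0⟩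
  rintro _ ⟨v, rfl⟩
  exact Finset.sum_nonneg (fun i _ => sq_nonneg _)

end Pool.Agent.H282R6.HC
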