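import Pool.Agent.H282R6.HC.Core
import Pool.Agent.H282R6.HC.Basic

/-! Mordell's inequality. -/

namespace Pool.Agent.H282R6.HC

theorem mordell (n : ℕ) (hn : 1 ≤ n) :
    gam (n + 1) ≤ gam n * gam (n + 1) ^ ((1 : ℝ) / (n : ℝ)) := by
  have hn0 : (0 : ℝ) < n := by exact_mod_cast hn
  obtain ⟨hg1, -, hgA⟩ := gam_basic n hn
  obtain ⟨hG1, -, hGA⟩ := gam_basic (n + 1) (Nat.le_add_left 1 n)
  have hg0 : 0 ≤ gam n := zero_le_one.trans hg1
  have hG0 : 0 ≤ gam (n + 1) := zero_le_one.trans hG1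
  have hmn0 : ∀ {m : ℕ} (A : Matrix (Fin m) (Fin m) ℝ), 0 ≤ mn A := fun A =>
    Real.iInf_nonneg fun w => Finset.sum_nonneg fun i _ => sq_nonneg _
  have key : ∀ A : Matrix (Fin (n + 1)) (Fin (n + 1)) ℝ, A.det ≠ 0 →
      mn A / |A.det| ^ ((2 : ℝ) / ((n + 1 : ℕ) : ℝ)) ≤ gam n * gam (n + 1) ^ ((1 : ℝ) / (n : ℝ)) := by
    intro A hA
    obtain ⟨B, hB, hAB, hdet⟩ := core hn A hA
    have hApos : 0 < |A.det| := abs_pos.2 hA
    have hpos : 0 < |A.det| ^ ((2 : ℝ) / ((n + 1 : ℕ) : ℝ)) := Real.rpow_pos_of_pos hApos _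
    rw [div_le_iff₀ hpos]
    have hD : (A⁻¹).transpose.det ≠ 0 := by
      rw [Matrix.det_transpose, Matrix.det_nonsing_inv, Ring.inverse_eq_inv']
      exact inv_ne_zero hA
    have hDabs : |(A⁻¹).transpose.det| = |A.det|⁻¹ := by
      rw [Matrix.det_transpose, Matrix.det_nonsing_inv, Ring.inverse_eq_inv', abs_inv]
    have h1 := hgA B hB
    have h2 := hGA _ hD
    rw [hDabs] at h2
    have hBpow : |B.det| ^ ((2 : ℝ) / (n : ℝ)) = (B.det ^ 2) ^ ((1 : ℝ) / (n : ℝ)) := by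
      rw [← sq_abs, ← Real.rpow_natCast, ← Real.rpow_mul (abs_nonneg _)]
      congr 1
      push_cast
      ring
    rw [hBpow, hdet] at h1
    calc mn A ≤ mn B := hAB
      _ ≤ gam n * (A.det ^ 2 * mn (A⁻¹).transpose) ^ ((1 : ℝ) / (n : ℝ)) := h1
      _ ≤ gam n * (A.det ^ 2 * (gam (n + 1) * |A.det|⁻¹ ^ ((2 : ℝ) / ((n + 1 : ℕ) : ℝ))))
            ^ ((1 : ℝ) / (n : ℝ)) := by
          apply mul_le_mul_of_nonneg_left _ hg0
          apply Real.rpow_le_rpow (mul_nonneg (sq_nonneg _) (hmn0 _)) _ (by positivity)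
          exact mul_le_mul_of_nonneg_left h2 (sq_nonneg _)
      _ = gam n * gam (n + 1) ^ ((1 : ℝ) / (n : ℝ)) * |A.det| ^ ((2 : ℝ) / ((n + 1 : ℕ) : ℝ)) := by
          have e1 : A.det ^ 2 = |A.det| ^ (2 : ℝ) := by
            rw [← sq_abs, ← Real.rpow_natCast]; norm_num
          have e2 : |A.det|⁻¹ ^ ((2 : ℝ) / ((n + 1 : ℕ) : ℝ))
              = |A.det| ^ (-((2 : ℝ) / ((n + 1 : ℕ) : ℝ))) := by
            rw [Real.rpow_neg hApos.le, Real.inv_rpow hApos.le]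
          rw [e1, e2]
          have e3 : |A.det| ^ (2 : ℝ) * (gam (n + 1) * |A.det| ^ (-((2 : ℝ) / ((n + 1 : ℕ) : ℝ))))
              = gam (n + 1) * |A.det| ^ ((2 : ℝ) + -((2 : ℝ) / ((n + 1 : ℕ) : ℝ))) := by
            rw [Real.rpow_add hApos]; ring
          rw [e3, Real.mul_rpow hG0 (Real.rpow_nonneg hApos.le _), ← Real.rpow_mul hApos.le]
          have e4 : ((2 : ℝ) + -((2 : ℝ) / ((n + 1 : ℕ) : ℝ))) * ((1 : ℝ) / (n : ℝ))
              = (2 : ℝ) / ((n + 1 : ℕ) : ℝ) := by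
            push_cast
            have h3 : (n : ℝ) + 1 ≠ 0 := by positivity
            field_simp
            ring
          rw [e4]; ring
  have hg : gam (n + 1) = ⨆ A : {A : Matrix (Fin (n + 1)) (Fin (n + 1)) ℝ // A.det ≠ 0},
      mn A.1 / |A.1.det| ^ ((2 : ℝ) / ((n + 1 : ℕ) : ℝ)) := rfl
  conv_lhs => rw [hg]
  exact Real.iSup_le (fun A => key A.1 A.2) (mul_nonneg hg0 (Real.rpow_nonneg hG0 _))

end Pool.Agent.H282R6.HC
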