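import Mathlib

/-! Slowly varying bounded sequences along sparse subsequences. -/

open Filter

namespace Pool.Agent.H282R6.HC

theorem spar_run (a : ℕ → ℝ) (K : ℝ) (hK : 0 ≤ K)
    (h : ∀ n : ℕ, 2 ≤ n → |a (n + 1) - a n| ≤ K * Real.log n / n) (s : ℕ) (hs : 3 ≤ s) :
    ∀ r : ℕ, |a (s + r) - a s| ≤ K * ((r : ℝ) * Real.log s / s) := by
  intro r
  induction r with
  | zero => simp
  | succ r ih =>
    have h1 := h (s + r) (by omega)
    have hs' : (3 : ℝ) ≤ (s : ℝ) := by exact_mod_cast hs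
    have he : Real.exp 1 ≤ (s : ℝ) := (Real.exp_one_lt_d9.le.trans (by norm_num)).trans hs'
    have hsr : (s : ℝ) ≤ ((s + r : ℕ) : ℝ) := by push_cast; linarith [Nat.cast_nonneg (α := ℝ) r]
    have h2 : Real.log ((s + r : ℕ) : ℝ) / ((s + r : ℕ) : ℝ) ≤ Real.log s / s :=
      Real.log_div_self_antitoneOn he (he.trans hsr) hsr
    have h3 : K * Real.log ((s + r : ℕ) : ℝ) / ((s + r : ℕ) : ℝ) ≤ K * (Real.log s / s) := by
      rw [mul_div_assoc]
      exact mul_le_mul_of_nonneg_left h2 hK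
    have h4 : a (s + (r + 1)) - a s = (a (s + r + 1) - a (s + r)) + (a (s + r) - a s) := by
      rw [← add_assoc]; ring
    rw [h4]
    calc |(a (s + r + 1) - a (s + r)) + (a (s + r) - a s)|
        ≤ |a (s + r + 1) - a (s + r)| + |a (s + r) - a s| := abs_add_le _ _
      _ ≤ K * (Real.log s / s) + K * ((r : ℝ) * Real.log s / s) := add_le_add (h1.trans h3) ih
      _ = K * (((r + 1 : ℕ) : ℝ) * Real.log s / s) := by push_cast; ring

private theorem spar_index (a : ℕ → ℝ) (K : ℝ)
    (h : ∀ n : ℕ, 2 ≤ n → |a (n + 1) - a n| ≤ K * Real.log n / n)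
    (d : ℕ → ℕ) (hd : StrictMono d)
    (hgap : Tendsto (fun k => ((d (k + 1) : ℝ) - d k) * Real.log (d k) / d k) atTop (nhds 0)) :
    ∃ k : ℕ → ℕ, Tendsto k atTop atTop ∧
      Tendsto (fun m => a m - a (d (k m))) atTop (nhds 0) := by
  classical
  have hK : 0 ≤ K := by
    have h1 := (abs_nonneg _).trans (h 2 le_rfl)
    have h2 : 0 < Real.log ((2 : ℕ) : ℝ) := Real.log_pos (by norm_num)
    by_contra hneg
    push Not at hneg
    have h3 : K * Real.log ((2 : ℕ) : ℝ) / ((2 : ℕ) : ℝ) < 0 := by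
      apply div_neg_of_neg_of_pos (mul_neg_of_neg_of_pos hneg h2)
      norm_num
    linarith
  refine ⟨fun m => Nat.findGreatest (fun j => d j ≤ m) m, ?_, ?_⟩
  · rw [tendsto_atTop]
    intro N
    filter_upwards [eventually_ge_atTop (max (d N) N)] with m hm
    exact Nat.le_findGreatest ((le_max_right _ _).trans hm) ((le_max_left _ _).trans hm)
  have hk : Tendsto (fun m => Nat.findGreatest (fun j => d j ≤ m) m) atTop atTop := by
    rw [tendsto_atTop]
    intro N
    filter_upwards [eventually_ge_atTop (max (d N) N)] with m hm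
    exact Nat.le_findGreatest ((le_max_right _ _).trans hm) ((le_max_left _ _).trans hm)
  have hg2 := (hgap.comp hk).const_mul K
  rw [mul_zero] at hg2
  apply squeeze_zero_norm' _ hg2
  filter_upwards [eventually_ge_atTop (d 0), hk.eventually_ge_atTop 3] with m hm hk3
  set k := Nat.findGreatest (fun j => d j ≤ m) m with hkdef
  have hdk : d k ≤ m := by
    have := Nat.findGreatest_spec (P := fun j => d j ≤ m) (Nat.zero_le m) hm
    exact this
  have hdk1 : m < d (k + 1) := by
    by_contra hcon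
    push Not at hcon
    have hle : k + 1 ≤ m := (hd.le_apply).trans hcon
    have := Nat.findGreatest_is_greatest (P := fun j => d j ≤ m) (Nat.lt_succ_self k) hle
    exact this hcon
  have h3 : 3 ≤ d k := hk3.trans hd.le_apply
  have h5 := spar_run a K hK h (d k) h3 (m - d k)
  rw [Nat.add_sub_cancel' hdk] at h5
  rw [Real.norm_eq_abs]
  refine h5.trans ?_
  change K * (((m - d k : ℕ) : ℝ) * Real.log (d k) / d k)
    ≤ K * (((d (k + 1) : ℝ) - d k) * Real.log (d k) / d k)
  apply mul_le_mul_of_nonneg_left _ hK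
  have hlog : 0 ≤ Real.log (d k) := Real.log_natCast_nonneg _
  have hle : ((m - d k : ℕ) : ℝ) ≤ (d (k + 1) : ℝ) - d k := by
    rw [Nat.cast_sub hdk]
    have : (m : ℝ) ≤ d (k + 1) := by exact_mod_cast hdk1.le
    linarith
  gcongr

/-- T12 -/
theorem sparse (a : ℕ → ℝ) (C K : ℝ) (hC : ∀ n, |a n| ≤ C)
    (h : ∀ n : ℕ, 2 ≤ n → |a (n + 1) - a n| ≤ K * Real.log n / n)
    (d : ℕ → ℕ) (hd : StrictMono d)
    (hgap : Tendsto (fun k => ((d (k + 1) : ℝ) - d k) * Real.log (d k) / d k) atTop (nhds 0)) :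
    liminf (fun k => a (d k)) atTop = liminf a atTop ∧
    limsup (fun k => a (d k)) atTop = limsup a atTop ∧
    ∀ L : ℝ, (Tendsto (fun k => a (d k)) atTop (nhds L) ↔ Tendsto a atTop (nhds L)) := by
  obtain ⟨k, hk, hak⟩ := spar_index a K h d hd hgap
  have hdt : Tendsto d atTop atTop := hd.tendsto_atTop
  have bA : ∀ (f : Filter ℕ) (u : ℕ → ℕ), IsBoundedUnder (· ≤ ·) f (fun n => a (u n)) :=
    fun f u => isBoundedUnder_of ⟨C, fun n => (abs_le.1 (hC _)).2⟩
  have bB : ∀ (f : Filter ℕ) (u : ℕ → ℕ), IsBoundedUnder (· ≥ ·) f (fun n => a (u n)) :=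
    fun f u => isBoundedUnder_of ⟨-C, fun n => (abs_le.1 (hC _)).1⟩
  refine ⟨le_antisymm ?_ ?_, le_antisymm ?_ ?_, fun L => ⟨fun hL => ?_, fun hL => hL.comp hdt⟩⟩
  · -- liminf (a ∘ d) ≤ liminf a
    apply le_of_forall_lt_imp_le_of_dense
    intro c hc
    obtain ⟨c', hc1, hc2⟩ := exists_between hc
    have e1 : ∀ᶠ j in atTop, c' < a (d j) :=
      eventually_lt_of_lt_liminf hc2 (bB atTop d)
    have e2 : ∀ᶠ m in atTop, c' < a (d (k m)) := hk.eventually e1
    have e3 : ∀ᶠ m in atTop, c - c' < a m - a (d (k m)) :=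
      hak.eventually (lt_mem_nhds (by linarith))
    apply le_liminf_of_le (bA atTop id).isCoboundedUnder_ge
    filter_upwards [e2, e3] with m h2 h3
    change c ≤ a m
    linarith
  · -- liminf a ≤ liminf (a ∘ d)
    apply le_of_forall_lt_imp_le_of_dense
    intro c hc
    have e1 : ∀ᶠ j in atTop, c < a j := eventually_lt_of_lt_liminf hc (bB atTop id)
    apply le_liminf_of_le (bA atTop d).isCoboundedUnder_ge
    filter_upwards [hdt.eventually e1] with m h2
    exact h2.le
  · -- limsup (a ∘ d) ≤ limsup a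
    apply le_of_forall_gt_imp_ge_of_dense
    intro c hc
    have e1 : ∀ᶠ j in atTop, a j < c := eventually_lt_of_limsup_lt hc (bA atTop id)
    apply limsup_le_of_le (bB atTop d).isCoboundedUnder_le
    filter_upwards [hdt.eventually e1] with m h2
    exact h2.le
  · -- limsup a ≤ limsup (a ∘ d)
    apply le_of_forall_gt_imp_ge_of_dense
    intro c hc
    obtain ⟨c', hc1, hc2⟩ := exists_between hc
    have e1 : ∀ᶠ j in atTop, a (d j) < c' :=
      eventually_lt_of_limsup_lt hc1 (bA atTop d)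
    have e2 : ∀ᶠ m in atTop, a (d (k m)) < c' := hk.eventually e1
    have e3 : ∀ᶠ m in atTop, a m - a (d (k m)) < c - c' :=
      hak.eventually (gt_mem_nhds (by linarith))
    apply limsup_le_of_le (bB atTop id).isCoboundedUnder_le
    filter_upwards [e2, e3] with m h2 h3
    change a m ≤ c
    linarith
  · have h1 : Tendsto (fun m => a (d (k m))) atTop (nhds L) := hL.comp hk
    have h2 := hak.add h1
    simpa using h2

end Pool.Agent.H282R6.HC
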