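import Mathlib

/-! Task Step: consecutive differences of `g n / n`. -/

set_option autoImplicit false

namespace Pool.Agent.H282R6.HC

private theorem step_upper (n a b : ℝ) (hn : 2 ≤ n) (ha0 : 1 ≤ a) (ha : a ≤ n) (hb0 : 1 ≤ b)
    (hb : b ≤ n + 1) (h : b ≤ a * b ^ (1 / n)) : b - a ≤ 4 * Real.log n := by
  have hn0 : 0 < n := by linarith
  have h1 : b ^ (1 / n) ≤ (n + 1) ^ (1 / n) :=
    Real.rpow_le_rpow (by linarith) hb (by positivity)
  have h2 : (n + 1) ^ (1 / n) = Real.exp (Real.log (n + 1) * (1 / n)) :=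
    Real.rpow_def_of_pos (by linarith) _
  obtain ⟨t, ht⟩ : ∃ t, t = Real.log (n + 1) * (1 / n) := ⟨_, rfl⟩
  have hlog0 : 0 ≤ Real.log (n + 1) := Real.log_nonneg (by linarith)
  have hlog1 : Real.log (n + 1) ≤ n := by
    have := Real.log_le_sub_one_of_pos (show (0:ℝ) < n + 1 by linarith)
    linarith
  have ht0 : 0 ≤ t := by
    rw [ht]
    positivity
  have htn : t * n = Real.log (n + 1) := by
    rw [ht]
    field_simp
  have ht1 : t ≤ 1 := by
    rw [ht, mul_one_div, div_le_one hn0]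
    exact hlog1
  have h3 := Real.abs_exp_sub_one_sub_id_le (x := t) (by rw [abs_of_nonneg ht0]; exact ht1)
  have h4 : Real.exp t ≤ 1 + 2 * t := by
    have := (abs_le.1 h3).2
    nlinarith
  have h5 : b ≤ a * (1 + 2 * t) := by
    refine h.trans (mul_le_mul_of_nonneg_left ?_ (by linarith))
    refine h1.trans ?_
    rw [h2, ← ht]
    exact h4
  have h6 : a * t ≤ n * t := mul_le_mul_of_nonneg_right ha ht0
  have h7 : Real.log (n + 1) ≤ 2 * Real.log n := by
    have : Real.log (n + 1) ≤ Real.log (n ^ 2) :=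
      Real.log_le_log (by linarith) (by nlinarith)
    rwa [Real.log_pow, Nat.cast_ofNat] at this
  nlinarith

private theorem step_lower (n a b : ℝ) (hn : 2 ≤ n) (ha0 : 1 ≤ a) (ha : a ≤ n)
    (h : a ^ (n / (n + 1)) ≤ b) : a - b ≤ Real.log n := by
  have hn0 : 0 < n := by linarith
  have ha' : 0 < a := by linarith
  have h1 : a ^ (n / (n + 1)) = a * Real.exp (-(Real.log a / (n + 1))) := by
    rw [Real.rpow_def_of_pos ha']
    conv_rhs => rw [← Real.exp_log ha', ← Real.exp_add]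
    congr 1
    rw [Real.exp_log ha']
    field_simp
    ring
  have h2 := Real.add_one_le_exp (-(Real.log a / (n + 1)))
  have h3 : a * (-(Real.log a / (n + 1)) + 1) ≤ b := by
    refine le_trans ?_ h
    rw [h1]
    exact mul_le_mul_of_nonneg_left h2 ha'.le
  have hla : Real.log a ≤ Real.log n := Real.log_le_log ha' ha
  have hla0 : 0 ≤ Real.log a := Real.log_nonneg ha0
  have h4 : a * (Real.log a / (n + 1)) ≤ Real.log a := by
    rw [mul_div_assoc', div_le_iff₀ (by linarith)]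
    nlinarith
  nlinarith

theorem step (g : ℕ → ℝ) (h1 : ∀ n, 1 ≤ n → 1 ≤ g n) (h2 : ∀ n, 1 ≤ n → g n ≤ n)
    (hM : ∀ n, 1 ≤ n → g (n + 1) ≤ g n * g (n + 1) ^ ((1 : ℝ) / (n : ℝ)))
    (hS : ∀ n, 1 ≤ n → g n ^ ((n : ℝ) / ((n : ℝ) + 1)) ≤ g (n + 1)) :
    ∃ K : ℝ, 0 < K ∧ ∀ n : ℕ, 2 ≤ n →
      |g (n + 1) / ((n + 1 : ℕ) : ℝ) - g n / (n : ℝ)| ≤ K * Real.log n / n := by
  refine ⟨6, by norm_num, fun n hn => ?_⟩
  have hn1 : 1 ≤ n := by omega
  have hnr : (2 : ℝ) ≤ (n : ℝ) := by exact_mod_cast hn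
  have a1 := h1 n hn1
  have a2 := h2 n hn1
  have b1 := h1 (n + 1) (by omega)
  have b2 := h2 (n + 1) (by omega)
  have hu := step_upper n (g n) (g (n + 1)) hnr a1 a2 b1 (by push_cast at b2; exact b2) (hM n hn1)
  have hl := step_lower n (g n) (g (n + 1)) hnr a1 a2 (hS n hn1)
  have hlog : (1 : ℝ) / 2 ≤ Real.log n := by
    have e1 : Real.log 2 ≤ Real.log n := Real.log_le_log (by norm_num) hnr
    have e2 := Real.log_two_gt_d9
    linarith
  obtain ⟨L, hL⟩ : ∃ L, L = Real.log (n : ℝ) := ⟨_, rfl⟩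
  obtain ⟨a, ha⟩ : ∃ a, a = g n := ⟨_, rfl⟩
  obtain ⟨b, hb⟩ : ∃ b, b = g (n + 1) := ⟨_, rfl⟩
  obtain ⟨m, hm⟩ : ∃ m : ℝ, m = (n : ℝ) := ⟨_, rfl⟩
  rw [← hL] at hu hl hlog ⊢
  rw [← ha] at hu hl a1 a2 ⊢
  rw [← hb] at hu hl b1 ⊢
  push_cast
  rw [← hm] at hnr a2 ⊢
  have hm0 : 0 < m := by linarith
  have e : b / (m + 1) - a / m = ((b - a) - a / m) / (m + 1) := by
    field_simp
    ring
  have ham : a / m ≤ 1 := by
    rw [div_le_one hm0]
    exact a2
  have ham0 : 0 ≤ a / m := by positivity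
  rw [e, abs_div, abs_of_pos (show (0 : ℝ) < m + 1 by linarith)]
  have h3 : |b - a - a / m| ≤ 6 * L := by
    rw [abs_le]
    constructor <;> linarith
  have hL0 : 0 ≤ 6 * L := by linarith
  refine (div_le_div_of_nonneg_right h3 (by linarith)).trans ?_
  exact div_le_div_of_nonneg_left hL0 hm0 (by linarith)

end Pool.Agent.H282R6.HC
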