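import Pool.Agent.H282R6.HC.Defs

open Filter

namespace Pool.Agent.H282R6.HC.Stubs

open Pool.Agent.H282R6.HC

/-- T1 Minkowski -/
theorem mn_le_stub {n : ℕ} (hn : 1 ≤ n) (A : Matrix (Fin n) (Fin n) ℝ) (hA : A.det ≠ 0) :
    mn A ≤ n * |A.det| ^ ((2 : ℝ) / (n : ℝ)) := by sorry

/-- T2 -/
theorem mn_attained_stub {n : ℕ} (hn : 1 ≤ n) (A : Matrix (Fin n) (Fin n) ℝ) (hA : A.det ≠ 0) :
    0 < mn A ∧ ∃ w : Fin n → ℤ, w ≠ 0 ∧ q A w = mn A ∧ ∀ d : ℤ, (∀ i, d ∣ w i) → IsUnit d := by sorry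

/-- T3 -/
theorem unimod_stub {n : ℕ} (a : Fin (n + 1) → ℤ) (ha : ∀ d : ℤ, (∀ i, d ∣ a i) → IsUnit d) :
    ∃ U : Matrix (Fin (n + 1)) (Fin (n + 1)) ℤ, IsUnit U.det ∧ ∀ i, U i (Fin.last n) = a i := by sorry

/-- T4 -/
theorem gram_root_stub {n : ℕ} (G : Matrix (Fin n) (Fin n) ℝ) (hG : G.PosDef) :
    ∃ B : Matrix (Fin n) (Fin n) ℝ, B.det ≠ 0 ∧ B.transpose * B = G := by sorry

/-- T5 -/
theorem minor_stub {n : ℕ} (P : Matrix (Fin (n + 1)) (Fin (n + 1)) ℝ) (hP : P.det ≠ 0) :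
    ((P.transpose * P).submatrix Fin.castSucc Fin.castSucc).det
      = P.det ^ 2 * ∑ i, (P⁻¹ (Fin.last n) i) ^ 2 := by sorry

/-- T6 -/
theorem core_stub {n : ℕ} (hn : 1 ≤ n) (A : Matrix (Fin (n + 1)) (Fin (n + 1)) ℝ) (hA : A.det ≠ 0) :
    ∃ B : Matrix (Fin n) (Fin n) ℝ, B.det ≠ 0 ∧ mn A ≤ mn B ∧
      B.det ^ 2 = A.det ^ 2 * mn (A⁻¹).transpose := by sorry

/-- T7 -/
theorem gam_basic_stub (n : ℕ) (hn : 1 ≤ n) :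
    1 ≤ gam n ∧ gam n ≤ n ∧
      ∀ A : Matrix (Fin n) (Fin n) ℝ, A.det ≠ 0 → mn A ≤ gam n * |A.det| ^ ((2 : ℝ) / (n : ℝ)) := by
  sorry

/-- T8 Mordell's inequality -/
theorem mordell_stub (n : ℕ) (hn : 1 ≤ n) :
    gam (n + 1) ≤ gam n * gam (n + 1) ^ ((1 : ℝ) / (n : ℝ)) := by sorry

/-- T9 direct sum with a line -/
theorem sum_stub (n : ℕ) (hn : 1 ≤ n) :
    gam n ^ ((n : ℝ) / ((n : ℝ) + 1)) ≤ gam (n + 1) := by sorry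

/-- T10 -/
theorem step_stub (g : ℕ → ℝ) (h1 : ∀ n, 1 ≤ n → 1 ≤ g n) (h2 : ∀ n, 1 ≤ n → g n ≤ n)
    (hM : ∀ n, 1 ≤ n → g (n + 1) ≤ g n * g (n + 1) ^ ((1 : ℝ) / (n : ℝ)))
    (hS : ∀ n, 1 ≤ n → g n ^ ((n : ℝ) / ((n : ℝ) + 1)) ≤ g (n + 1)) :
    ∃ K : ℝ, 0 < K ∧ ∀ n : ℕ, 2 ≤ n →
      |g (n + 1) / ((n + 1 : ℕ) : ℝ) - g n / (n : ℝ)| ≤ K * Real.log n / n := by sorry

/-- T11 -/
theorem cluster_stub (a : ℕ → ℝ) (C : ℝ) (hC : ∀ n, |a n| ≤ C)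
    (h : Tendsto (fun n => a (n + 1) - a n) atTop (nhds 0)) (x : ℝ) :
    MapClusterPt x atTop a ↔ liminf a atTop ≤ x ∧ x ≤ limsup a atTop := by sorry

/-- T12 -/
theorem sparse_stub (a : ℕ → ℝ) (C K : ℝ) (hC : ∀ n, |a n| ≤ C)
    (h : ∀ n : ℕ, 2 ≤ n → |a (n + 1) - a n| ≤ K * Real.log n / n)
    (d : ℕ → ℕ) (hd : StrictMono d)
    (hgap : Tendsto (fun k => ((d (k + 1) : ℝ) - d k) * Real.log (d k) / d k) atTop (nhds 0)) :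
    liminf (fun k => a (d k)) atTop = liminf a atTop ∧
    limsup (fun k => a (d k)) atTop = limsup a atTop ∧
    ∀ L : ℝ, (Tendsto (fun k => a (d k)) atTop (nhds L) ↔ Tendsto a atTop (nhds L)) := by sorry

end Pool.Agent.H282R6.HC.Stubs
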